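import Pool.Agent.EQT.D5
import Pool.Agent.EQT.D6b
import Pool.Agent.QT.D15

/-!
# [EQT-D7] the arithmetic side of the equivalence
-/

set_option autoImplicit false

open NumberField IsDedekindDomain
open scoped Classical

namespace EQT

open PI (Gi KI eG emK la la_prime pl ii sy Prim)
open QT QTD

theorem Dd_ne' {s t : ℕ} {S : Finset Gi} {a : Gi → ℕ} (h : Adm s t S a) : emK (Dd s t S a) ≠ 0 :=
  PID.emK_ne (Dd_ne h.1)

/-- [EQT-D7a] -/
theorem desc_iff {s t : ℕ} {S : Finset Gi} {a : Gi → ℕ} (h : Cls s t S a) :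
    QT.Good s t S a ↔ (Finite (W ((eG (Dd s t S a) : 𝓞 KI) : KI)).toAffine.Point ∧
      ∀ x : SBSD.Sha (W ((eG (Dd s t S a) : 𝓞 KI) : KI)), 2 • x = 0 → x = 0) := by
  change QT.Good s t S a ↔ (Finite (W (emK (Dd s t S a))).toAffine.Point ∧
      ∀ x : SBSD.Sha (W (emK (Dd s t S a))), 2 • x = 0 → x = 0)
  rw [← sel_iff (Dd_ne' h.1) (not_sq h)]
  exact ⟨selTriv, good_of_sel h⟩

/-- [EQT-D7b] -/
theorem tors_all {s t : ℕ} {S : Finset Gi} {a : Gi → ℕ} (h : Cls s t S a) :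
    Nat.card (AddCommGroup.torsion (W ((eG (Dd s t S a) : 𝓞 KI) : KI)).toAffine.Point) = 0 ∨
      ∃ m : ℕ, Odd m ∧ Nat.card (AddCommGroup.torsion (W ((eG (Dd s t S a) : 𝓞 KI) : KI)).toAffine.Point) = 2 * m :=
  card_tors (d := emK (Dd s t S a)) (Dd_ne' h.1) PID.emK_ii (not_sq h)

end EQT
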