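import Pool.Agent.QTT.T9
import Pool.Agent.QTW.V9e
import Pool.Agent.EQT.Defs

/-!
# [EQT-L1b] the determinants are zero if the kernels are not trivial
-/

set_option autoImplicit false

open scoped Classical

namespace EQT

open PI QTW QTT

/-- [EQT-L1b1] -/
theorem det_zero {s t : ℕ} {S : Finset Gi} {a : Gi → ℕ}
    (h : ¬ ∀ z : S → ZMod 2, (QT.LM s t S a).mulVec z = 0 → z = 0) : AD (aw a) (ew s t) S = 0 := by
  push Not at h
  obtain ⟨z, h1, h2⟩ := h
  unfold AD
  rw [← LM_AM]
  exact Matrix.exists_mulVec_eq_zero_iff.1 ⟨z, h2, h1⟩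

theorem l1b_two (x : ZMod 2) : x + x = 0 := by
  revert x
  decide

/-- [EQT-L1b2] PROOF. Let `AM (aw a) 0 S z = 0`, `z ≠ 0`, `z ≠ 1`, and `k ∈ S`. `z' = z - z_k 1` is in the kernel as well (the row sums of `AM (aw a) 0 S` are `0`), `z' k = 0`, `z' ≠ 0`; the restriction of `z'` to `S.erase k` is in the kernel of
`AM (aw a) (aw a k) (S.erase k)` (`t9_mul` of QTT/T9.lean describes the rows), so that determinant is zero. -/
theorem AE_sing {S : Finset Gi} {a : Gi → ℕ} (b : Gi → ZMod 2)
    (h : ¬ ∀ z : S → ZMod 2, (AM (aw a) 0 S).mulVec z = 0 → z = 0 ∨ z = 1) : AE (aw a) b S = 0 := by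
  push Not at h
  obtain ⟨z, hz, hz0, hz1⟩ := h
  unfold AE
  refine Finset.sum_eq_zero fun k hk => ?_
  set w0 : Gi → ZMod 2 := fun j => if hj : j ∈ S then z ⟨j, hj⟩ else 0 with hw0
  have hw0z : ∀ j : S, z j = w0 j := by
    intro j
    rw [hw0]
    simp only
    rw [dif_pos j.2]
  set w : Gi → ZMod 2 := fun j => w0 j + w0 k with hw
  have hwk : w k = 0 := l1b_two _
  have hrow : ∀ j ∈ S, (∑ l ∈ S.erase j, aw a l j) * w0 j + ∑ i ∈ S.erase j, aw a i j * w0 i = 0 := by
    intro j hj
    have h1 := congrFun hz ⟨j, hj⟩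
    rw [t9_mul (aw a) 0 z w0 hw0z hj, Pi.zero_apply, Pi.zero_apply, zero_add] at h1
    exact h1
  have hdet : AD (aw a) (aw a k) (S.erase k) = 0 := by
    unfold AD
    refine Matrix.exists_mulVec_eq_zero_iff.1 ⟨fun j => w j, ?_, ?_⟩
    · intro h0
      have h1 : ∀ j : S, z j = w0 k := by
        intro j
        rw [hw0z j]
        by_cases hjk : (j : Gi) = k
        · rw [hjk]
        · have h2 := congrFun h0 ⟨j, Finset.mem_erase.2 ⟨hjk, j.2⟩⟩
          change w0 j + w0 k = 0 at h2
          linear_combination h2 - l1b_two (w0 k)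
      by_cases h3 : w0 k = 0
      · apply hz0
        funext j
        rw [h1 j, h3]
        rfl
      · apply hz1
        funext j
        rw [h1 j, z2_ne_zero h3]
        rfl
    · funext j
      obtain ⟨j, hj⟩ := j
      obtain ⟨hjk, hjS⟩ := Finset.mem_erase.1 hj
      rw [t9_mul (aw a) (aw a k) _ w (fun _ => rfl) hj, Pi.zero_apply]
      have hkj : k ∈ S.erase j := Finset.mem_erase.2 ⟨fun e => hjk e.symm, hk⟩
      have e1 : aw a k j + ∑ l ∈ (S.erase k).erase j, aw a l j = ∑ l ∈ S.erase j, aw a l j := by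
        rw [Finset.erase_right_comm, Finset.add_sum_erase _ (fun l => aw a l j) hkj]
      have e2 : ∑ i ∈ (S.erase k).erase j, aw a i j * w i = ∑ i ∈ S.erase j, aw a i j * w i := by
        rw [Finset.erase_right_comm, ← Finset.add_sum_erase _ _ hkj, hwk, mul_zero, zero_add]
      have e3 : ∑ i ∈ S.erase j, aw a i j * w i = ∑ i ∈ S.erase j, aw a i j * w0 i +
          (∑ i ∈ S.erase j, aw a i j) * w0 k := by
        rw [Finset.sum_mul, ← Finset.sum_add_distrib]
        refine Finset.sum_congr rfl fun i _ => ?_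
        rw [hw]
        ring
      have h5 := hrow j hjS
      have h6 : w j = w0 j + w0 k := rfl
      rw [e1, e2, e3, h6]
      linear_combination h5 + l1b_two ((∑ l ∈ S.erase j, aw a l j) * w0 k)
  rw [hdet, mul_zero]

/-- [EQT-L1b3] The converse of `QTT.det_C`. PROOF. `¬ GoodC` gives `x`, `z` with the two equations and `x ≠ 0 ∨ z ≠ 0`. The vector `v` on `insert la S` with `v la = x`, `v j = z j` is not zero and in the kernel (`t9_mul`; the computations of `det_C` in QTT/T9.lean backwards). -/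
theorem det_C_zero {s : ℕ} {S : Finset Gi} {a : Gi → ℕ} (hadm : QT.Adm s 1 S a) (h : ¬ QT.GoodC s 1 S a) :
    AD (bo la (aw a) (fun i => (a i : ZMod 2) * sy ii i) (fun q => sy ii q))
      (Function.update (e1 s) la (if s = 0 ∨ s = 3 then 1 else 0)) (insert la S) = 0 := by
  have hla := t9_la hadm
  have h' : ∃ (x : ZMod 2) (z : S → ZMod 2),
      ((if s = 0 ∨ s = 3 then 1 else 0) + QT.bD S a) * x + ∑ j : S, (a j : ZMod 2) * sy ii j * z j = 0 ∧
      (∀ j : S, x * sy ii j + (QT.LM s 1 S a).mulVec z j = 0) ∧ ¬ (x = 0 ∧ z = 0) := by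
    by_contra hc
    apply h
    refine ⟨hadm, rfl, fun x z h1 h2 => ?_⟩
    by_contra h3
    exact hc ⟨x, z, h1, h2, h3⟩
  obtain ⟨x, z, h1, h2, h3⟩ := h'
  have hne : ∀ {j : Gi}, j ∈ S → j ≠ la := fun hj e => hla (e ▸ hj)
  set w : Gi → ZMod 2 := fun k => if k = la then x else if hk : k ∈ S then z ⟨k, hk⟩ else 0 with hw
  have hwla : w la = x := if_pos rfl
  have hwz : ∀ j : S, z j = w j := by
    intro j
    rw [hw]
    simp only
    rw [if_neg (hne j.2), dif_pos j.2]
  unfold AD
  refine Matrix.exists_mulVec_eq_zero_iff.1 ⟨fun j => w j, ?_, ?_⟩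
  · intro h0
    apply h3
    constructor
    · have h4 := congrFun h0 ⟨la, Finset.mem_insert_self la S⟩
      rw [← hwla]
      exact h4
    · funext j
      have h4 := congrFun h0 ⟨j, Finset.mem_insert_of_mem j.2⟩
      rw [hwz j]
      exact h4
  · funext j
    obtain ⟨j, hj⟩ := j
    rw [t9_mul _ _ _ w (fun _ => rfl) hj, Pi.zero_apply]
    rcases Finset.mem_insert.1 hj with hjl | hjS
    · rw [hjl, Finset.erase_insert hla, Function.update_self, hwla]
      rw [Finset.sum_congr rfl (fun (j : S) _ => by rw [hwz j]),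
        Finset.sum_coe_sort S (fun j => (a j : ZMod 2) * sy ii j * w j)] at h1
      have e2 : ∀ l ∈ S, bo la (aw a) (fun i => (a i : ZMod 2) * sy ii i) (fun q => sy ii q) l la =
          (a l : ZMod 2) * sy ii l := by
        intro l hl
        unfold bo
        rw [if_neg (hne hl), if_pos rfl]
      have e3 : ∑ k ∈ S, bo la (aw a) (fun i => (a i : ZMod 2) * sy ii i) (fun q => sy ii q) k la * w k =
          ∑ k ∈ S, (a k : ZMod 2) * sy ii k * w k := Finset.sum_congr rfl fun l hl => by rw [e2 l hl]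
      rw [Finset.sum_congr rfl e2, e3]
      exact h1
    · have h4 := h2 ⟨j, hjS⟩
      have hjn := hne hjS
      rw [t9_LM, t9_mul (aw a) _ z w hwz hjS] at h4
      rw [Finset.erase_insert_of_ne hjn.symm, Function.update_of_ne hjn,
        Finset.sum_insert (fun hh => hla (Finset.mem_of_mem_erase hh)),
        Finset.sum_insert (fun hh => hla (Finset.mem_of_mem_erase hh)), hwla]
      have e1' : bo la (aw a) (fun i => (a i : ZMod 2) * sy ii i) (fun q => sy ii q) la j = sy ii j := by
        unfold bo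
        rw [if_pos rfl]
      have e2 : ∀ l ∈ S.erase j, bo la (aw a) (fun i => (a i : ZMod 2) * sy ii i) (fun q => sy ii q) l j =
          aw a l j := by
        intro l hl
        unfold bo
        rw [if_neg (hne (Finset.mem_of_mem_erase hl)), if_neg hjn]
      have e3 : ∑ k ∈ S.erase j, bo la (aw a) (fun i => (a i : ZMod 2) * sy ii i) (fun q => sy ii q) k j * w k =
          ∑ k ∈ S.erase j, aw a k j * w k := Finset.sum_congr rfl fun l hl => by rw [e2 l hl]
      rw [e1', Finset.sum_congr rfl e2, e3]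
      unfold e1
      push_cast at h4
      linear_combination h4 + t9_two (sy ii j) * w j

end EQT
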