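import Pool.Agent.EQT.L1a
import Pool.Agent.EQT.L1b
import Pool.Agent.QTL.Z

/-!
# [EQT-L1d] the classes `ClA`, `ClB`: the value is divisible, if the kernel is not trivial
-/

set_option autoImplicit false

open scoped Classical

namespace EQT

open PI QTL QTW

section

variable (A : ValuationSubring ℂ) (hA : A.valuation 2 < 1)
include hA

/-- [EQT-L1.1] PROOF. As `QTW.w_of_cg` (QTW/V9e.lean) with `v (Hn) < 1` in place of `= 1`. -/
theorem w_of_cg0 {s t : ℕ} {a : Gi → ℕ} {S : Finset Gi} (ht : t = 0 ∨ t = 2 ∨ t = 3) (h : Cg A (Hn s t a S) 0) :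
    A.valuation (lQ s t a S) ^ 8 * A.valuation 2 ^ (if t = 0 then 8 else 4 + t) < 1 := by
  have h1 : A.valuation (Hn s t a S) < 1 := by
    have h0 := (v3_iff A hA (Hn s t a S) 0).1 (by rw [Int.cast_zero]; exact h)
    rw [Int.cast_zero, sub_zero] at h0
    exact h0
  have hw : A.valuation p8 ≠ 0 := (w_pos A).ne'
  unfold Hn at h1
  rw [map_div₀, map_mul, map_pow, map_pow, w_la4 A hA, ← pow_mul, div_lt_one₀ (pow_pos (w_pos A) _)] at h1
  have key : ∀ n r : ℕ, n + r = 28 → A.valuation (lQ s t a S) * A.valuation p8 ^ (4 * 7) < A.valuation p8 ^ r →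
      A.valuation (lQ s t a S) ^ 8 * A.valuation 2 ^ n < 1 := by
    intro n r hnr h2
    have h3 : A.valuation (lQ s t a S) * A.valuation p8 ^ n < 1 := by
      by_contra hc
      rw [not_lt] at hc
      have h5 : 1 * A.valuation p8 ^ r ≤ A.valuation (lQ s t a S) * A.valuation p8 ^ n * A.valuation p8 ^ r :=
        mul_le_mul' hc le_rfl
      rw [one_mul, mul_assoc, ← pow_add, hnr] at h5
      exact absurd h2 (not_lt.2 h5)
    rw [← w_p8 A, ← pow_mul, mul_comm 8 n, pow_mul, ← mul_pow]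
    exact pow_lt_one₀ zero_le h3 (by norm_num)
  rcases ht with rfl | rfl | rfl
  · exact key 8 20 (by norm_num) (by simpa [rr] using h1)
  · exact key 6 22 (by norm_num) (by simpa [rr] using h1)
  · exact key 7 21 (by norm_num) (by simpa [rr] using h1)

/-- [EQT-L1.2] PROOF. The proof of `QTW.w_lQ_A` (QTW/V9e.lean) gives `Cg A (Hn s t a S) (c0 * AD .. + AF ..)`; `AD = 0` by `det_zero` and `AF = 0` by `AF_gen` (`t = 2`: `b k = a k * ew s t k`) or since the weights are `0`. -/
theorem Hn_A {s t : ℕ} {a : Gi → ℕ} {S : Finset Gi} (h : QT.Adm s t S a) (hcl : ClA s t S a)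
    (hn : ¬ ∀ z : S → ZMod 2, (QT.LM s t S a).mulVec z = 0 → z = 0) : Cg A (Hn s t a S) 0 := by
  have hadm := h
  have hs : s ≤ 3 := hadm.2.2.1
  have ht3 : t ≤ 3 := hadm.2.2.2
  have ht : t = 0 ∨ t = 2 ∨ t = 3 := by
    rcases hcl with h1 | h1 | h1
    · exact Or.inl h1.1
    · exact Or.inr (Or.inr h1)
    · exact Or.inr (Or.inl h1.1)
  have hdet := det_zero hn
  have hsym : ∀ j ∈ S, ∀ k ∈ S, sy j k = sy k j := fun j hj k hk =>
    sy_symm j k (hadm.1 j hj).1 (hadm.1 k hk).1 (hadm.1 j hj).2 (hadm.1 k hk).2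
  have hAF := AF_gen a (ew s t) hsym
  rw [hdet, zero_mul] at hAF
  -- the general conclusion
  have key : ∀ (b : Gi → ZMod 2) (c0 : ZMod 2), Cg A (FV s t 0 / p8 ^ rr t) c0 →
      (∀ U ⊆ S, U.Nonempty → (if t = 2 ∧ U.card = 1 then ∑ k ∈ U, (a k : ZMod 2) * sy ii k else 0) =
        (if U.card = 1 then ∑ k ∈ U, b k else 0)) → AF (aw a) (ew s t) b S = 0 → Cg A (Hn s t a S) 0 := by
    intro b c0 h0 hb hone
    have h1 := rec_main A hA (S := S) (aw a) (ew s t) b c0 (Hn s t a) (fac s t a)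
      (fun U => RQ s t a U * em la ^ 7 / p8 ^ rr t) (by rw [Hn_empty hs ht3]; exact h0)
      (fun U hU _ => Hn_rec (adm_sub hadm hU))
      (fun U hU hne => by
        have h2 := src_cg A hA (adm_sub hadm hU) ht hne
        rw [hb U hU hne] at h2
        exact h2)
      (fun T hT p hp => fac_cg A hA hadm hT hp) S (subset_refl S)
    rw [hdet, mul_zero, hone, add_zero] at h1
    exact h1
  have hzero : AF (aw a) (ew s t) (fun _ => 0) S = 0 := by
    unfold AF
    exact Finset.sum_eq_zero fun k _ => zero_mul _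
  rcases hcl with h1 | h1 | ⟨h1, h2⟩
  · refine key (fun _ => 0) 1 (v9_unit A hA (FV_close A hA hs (Or.inl h1))) ?_ hzero
    intro U _ _
    have h3 : ¬ (t = 2 ∧ U.card = 1) := fun hh => by omega
    rw [if_neg h3, Finset.sum_const_zero, ite_self]
  · refine key (fun _ => 0) 1 (v9_unit A hA (FV_close A hA hs (Or.inr (Or.inl h1)))) ?_ hzero
    intro U _ _
    have h3 : ¬ (t = 2 ∧ U.card = 1) := fun hh => by omega
    rw [if_neg h3, Finset.sum_const_zero, ite_self]
  · have hew : ∀ k, ew s t k = sy ii k := by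
      intro k
      unfold ew
      have e1 : ((t : ℕ) : ZMod 2) = 0 := by
        rw [h1]
        rfl
      have e2 : ((s : ℕ) : ZMod 2) = 1 := by
        rcases h2 with ⟨h3, -⟩ | ⟨h3, -⟩ <;> rw [h3] <;> rfl
      rw [e1, e2, one_mul, zero_mul, add_zero]
    have hb : ∀ U ⊆ S, U.Nonempty → (if t = 2 ∧ U.card = 1 then ∑ k ∈ U, (a k : ZMod 2) * sy ii k else 0) =
        (if U.card = 1 then ∑ k ∈ U, (a k : ZMod 2) * ew s t k else 0) := by
      intro U _ _
      have e3 : (t = 2 ∧ U.card = 1) ↔ U.card = 1 := ⟨fun hh => hh.2, fun hh => ⟨h1, hh⟩⟩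
      simp only [e3]
      refine if_congr Iff.rfl (Finset.sum_congr rfl fun k _ => by rw [hew]) rfl
    rcases h2 with ⟨h3, h4⟩ | ⟨h3, h4⟩
    · exact key (fun k => (a k : ZMod 2) * ew s t k) 1 (v9_unit A hA (FV_close A hA hs (Or.inr (Or.inr ⟨h1, h3⟩)))) hb
        hAF
    · refine key (fun k => (a k : ZMod 2) * ew s t k) 0 ?_ hb hAF
      subst h3 h1
      rw [FV_zero_32, zero_div]
      exact v3_zero A hA (by rw [map_zero]; exact zero_lt_one)

/-- [EQT-L1.3] PROOF. The proof of `QTW.w_lQ_B` (QTW/V9e.lean) with `AE_sing` in place of `AE_B` (`ew_even`: `ew s t = 0`). -/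
theorem Hn_B {s t : ℕ} {a : Gi → ℕ} {S : Finset Gi} (h : QT.Adm s t S a) (hcl : ClB s t S a)
    (hn : ¬ ∀ z : S → ZMod 2, (QT.LM s t S a).mulVec z = 0 → z = 0 ∨ z = 1) : Cg A (Hn s t a S) 0 := by
  have hadm := h
  have hs : s ≤ 3 := hadm.2.2.1
  have ht3 : t ≤ 3 := hadm.2.2.2
  have ht2 : t = 0 ∨ t = 2 := by
    rcases hcl with h1 | h1
    · exact Or.inl h1.1
    · exact Or.inr h1.1
  have ht : t = 0 ∨ t = 2 ∨ t = 3 := by
    rcases ht2 with h1 | h1
    · exact Or.inl h1
    · exact Or.inr (Or.inl h1)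
  have hse : Even s := by
    rcases hcl with h1 | ⟨-, h1 | h1⟩
    · exact h1.2.1
    · rw [h1.1]
      exact ⟨0, rfl⟩
    · rw [h1.1]
      exact ⟨1, rfl⟩
  have hte : Even t := by
    rcases ht2 with h1 | h1
    · rw [h1]
      exact ⟨0, rfl⟩
    · rw [h1]
      exact ⟨1, rfl⟩
  have hew := ew_even hse hte
  have hne : S.Nonempty := by
    rw [Finset.nonempty_iff_ne_empty]
    intro h0
    apply hn
    intro z _
    left
    funext k
    exact absurd (h0 ▸ k.2 : (k : Gi) ∈ (∅ : Finset Gi)) (Finset.notMem_empty _)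
  rw [LM_AM, hew] at hn
  -- the weights
  set b : Gi → ZMod 2 := fun k => (if t = 2 then (a k : ZMod 2) * sy ii k else 0) +
    ((if s = 0 ∧ t = 0 then sy ii k else 0) + (if s = 2 then sy ii k else 0) + (if t = 2 then sy la k else 0)) with hb
  have hrec : ∀ U ⊆ S, U.Nonempty → ∑ T ∈ U.powerset.erase ∅, (-1) ^ T.card * Hn s t a T * ∏ p ∈ U \ T, fac s t a T p =
      RQ s t a U * em la ^ 7 / p8 ^ rr t + -(Hn s t a ∅ * ∏ p ∈ U, fac s t a ∅ p) := by
    intro U hU _
    have h1 := Hn_rec (adm_sub hadm hU)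
    rw [← Finset.add_sum_erase _ _ (Finset.empty_mem_powerset U)] at h1
    rw [Finset.card_empty, pow_zero, one_mul, Finset.sdiff_empty] at h1
    rw [← h1]
    ring
  have h1 := rec_main_one A hA (S := S) (aw a) b (Hn s t a) (fac s t a) _ hrec
    (fun U hU hne => by
      have h2 := src_cg A hA (adm_sub hadm hU) ht hne
      have h3 := Cg.neg A hA (empty_cg A hA (adm_sub hadm hU) hse ht2 hne)
      have h4 := Cg.add A hA h2 h3
      have e : (if U.card = 1 then ∑ k ∈ U, b k else 0) =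
          (if t = 2 ∧ U.card = 1 then ∑ k ∈ U, (a k : ZMod 2) * sy ii k else 0) + (if U.card = 1 then ∑ p ∈ U,
      ((if s = 0 ∧ t = 0 then sy ii p else 0) + (if s = 2 then sy ii p else 0) + (if t = 2 then sy la p else 0)) else 0) := by
        by_cases hc : U.card = 1
        · rw [if_pos hc, if_pos hc, hb, Finset.sum_add_distrib]
          congr 1
          by_cases h5 : t = 2
          · simp only [h5, hc, and_self, if_true]
          · simp only [h5, hc, false_and, if_false, Finset.sum_const_zero]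
        · rw [if_neg hc, if_neg hc, if_neg (fun hh => hc hh.2), add_zero]
      rw [e]
      exact h4)
    (fun T hT _ p hp => by
      have h2 := fac_cg A hA hadm hT hp
      rw [hew] at h2
      rw [Pi.zero_apply, zero_add] at h2
      exact h2) S (subset_refl S) hne
  rw [AE_sing b hn] at h1
  exact h1

end

end EQT
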