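import Pool.Agent.EQT.L1c
import Pool.Agent.EQT.L1d

/-!
# [EQT-L1] the valuation of `lQ` for all classes of stage 1
-/

set_option autoImplicit false

open scoped Classical

namespace EQT

open PI QTL QTW

section

variable (A : ValuationSubring ℂ) (hA : A.valuation 2 < 1)
include hA

/-- [EQT-L1.5] -/
theorem w_all {s t : ℕ} {a : Gi → ℕ} {S : Finset Gi} (h : Cls s t S a) :
    A.valuation (lQ s t a S) ^ 8 ≤ A.valuation 2 ^ (-((if t = 0 then 8 else 4 + t : ℕ) : ℤ)) ∧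
      (A.valuation (lQ s t a S) ^ 8 = A.valuation 2 ^ (-((if t = 0 then 8 else 4 + t : ℕ) : ℤ)) ↔ QT.Good s t S a) := by
  have h20 : A.valuation (2 : ℂ) ≠ 0 := (map_ne_zero _).2 two_ne_zero
  have hpos : ∀ n : ℕ, 0 < A.valuation (2 : ℂ) ^ n := fun n => zero_lt_iff.2 (pow_ne_zero _ h20)
  have key : (QT.Good s t S a → A.valuation (lQ s t a S) ^ 8 * A.valuation 2 ^ (if t = 0 then 8 else 4 + t) = 1) ∧
      (¬ QT.Good s t S a → A.valuation (lQ s t a S) ^ 8 * A.valuation 2 ^ (if t = 0 then 8 else 4 + t) < 1) := by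
    refine ⟨fun hg => QT.w_lQ hg A hA, fun hn => ?_⟩
    obtain ⟨hadm, hcl, -⟩ := h
    rcases hcl with hcl | hcl | hcl
    · refine w_of_cg0 A hA ?_ (Hn_A A hA hadm hcl fun hk => hn (Or.inl ⟨hadm, hcl, hk⟩))
      rcases hcl with h1 | h1 | h1
      · exact Or.inl h1.1
      · exact Or.inr (Or.inr h1)
      · exact Or.inr (Or.inl h1.1)
    · refine w_of_cg0 A hA ?_ (Hn_B A hA hadm hcl fun hk => hn (Or.inr (Or.inl ⟨hadm, hcl, hk⟩)))
      rcases hcl with h1 | h1
      · exact Or.inl h1.1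
      · exact Or.inr (Or.inl h1.1)
    · subst hcl
      exact w_lt_C A hA hadm fun hk => hn (Or.inr (Or.inr hk))
  rw [zpow_neg, zpow_natCast]
  by_cases hg : QT.Good s t S a
  · have h1 := key.1 hg
    have h2 : A.valuation (lQ s t a S) ^ 8 = (A.valuation 2 ^ (if t = 0 then 8 else 4 + t))⁻¹ :=
      eq_inv_of_mul_eq_one_left h1
    exact ⟨h2.le, fun _ => hg, fun _ => h2⟩
  · have h1 := key.2 hg
    have h2 : A.valuation (lQ s t a S) ^ 8 < (A.valuation 2 ^ (if t = 0 then 8 else 4 + t))⁻¹ := by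
      rw [← one_div]
      exact (lt_div_iff₀ (hpos _)).2 h1
    exact ⟨h2.le, fun h3 => absurd h3 h2.ne, fun h3 => absurd h3 hg⟩

end

end EQT
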