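import Pool.Agent.EQT.L1b
import Pool.Agent.QTL.Z

/-!
# [EQT-L1c] the class `t = 1`
-/

set_option autoImplicit false

open scoped Classical

namespace EQT

open PI QTL QTW

section

variable (A : ValuationSubring ℂ) (hA : A.valuation 2 < 1)
include hA

/-- [EQT-L1.4] PROOF. The proof of `QTT.w_lQ_C` (QTT/T9.lean) with `det_C_zero` in place of `det_C`: `Cg A (lQ s 1 a S * em la ^ 7 / p8 ^ 23) 0`, so its valuation is `< 1` (`v3_iff`-style, see `w_of_cg0`). -/
theorem w_lt_C {s : ℕ} {a : Gi → ℕ} {S : Finset Gi} (h : QT.Adm s 1 S a) (hn : ¬ QT.GoodC s 1 S a) :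
    A.valuation (lQ s 1 a S) ^ 8 * A.valuation 2 ^ 5 < 1 := by
  have hadm := h
  have hs : s ≤ 3 := hadm.2.2.1
  have hla := QTT.t9_la hadm
  have hne := QTT.t9_la_ne
  have hH := QTT.rec_border A hA hla (aw a) (QTT.e1 s) (fun i => (a i : ZMod 2) * sy ii i) (fun q => sy ii q)
    (if s = 0 ∨ s = 3 then 1 else 0) (fun T => QTL.lQ s 1 a T * em la ^ 7 / p8 ^ 23)
    (fun T p => (em p - QTL.cs s 1 p * ∏ q ∈ T, QTL.c4 q p ^ a q) / em la)
    (fun U => QTL.RQ s 1 a U * em la ^ 7 / p8 ^ 23) ?_ ?_ ?_ ?_ S (subset_refl S)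
  · rw [det_C_zero hadm hn] at hH
    have h1 : A.valuation (QTL.lQ s 1 a S * em la ^ 7 / p8 ^ 23) < 1 := by
      have h2 : A.valuation (QTL.lQ s 1 a S * em la ^ 7 / p8 ^ 23 - (((0 : ZMod 2)).val : ℂ)) < 1 := hH
      rw [ZMod.val_zero, Nat.cast_zero, sub_zero] at h2
      exact h2
    have hw : 0 < A.valuation p8 := w_pos A
    rw [map_div₀, map_mul, map_pow, map_pow, w_la4 A hA, ← pow_mul, div_lt_one₀ (pow_pos hw _)] at h1
    have h3 : A.valuation (QTL.lQ s 1 a S) * A.valuation p8 ^ 5 < 1 := by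
      have h4 : A.valuation (QTL.lQ s 1 a S) * A.valuation p8 ^ 5 * A.valuation p8 ^ 23 < 1 * A.valuation p8 ^ 23 := by
        rw [mul_assoc, ← pow_add, one_mul]
        exact h1
      exact lt_of_mul_lt_mul_right h4 zero_le
    rw [← w_p8 A, ← pow_mul, mul_comm 8 5, pow_mul, ← mul_pow]
    exact pow_lt_one₀ zero_le h3 (by norm_num)
  · have e : QTL.lQ s 1 a ∅ * em la ^ 7 / p8 ^ 23 = FV s 1 0 / p8 ^ 23 := by
      rw [QTT.t9_lQ_empty hs (by norm_num)]
      field_simp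
    rw [e]
    by_cases hs2 : s = 0 ∨ s = 3
    · rw [if_pos hs2]
      refine v3_one A hA ?_
      have e : FV s 1 0 / p8 ^ 23 - 1 = (FV s 1 0 - p8 ^ 23) / p8 ^ 23 := by
        rw [sub_div, div_self (pow_ne_zero 23 p8_ne)]
      rw [e, map_div₀, map_pow]
      exact (div_lt_one₀ (pow_pos (w_pos A) _)).2 (QTT.FV_close_1 A hA hs2)
    · rw [if_neg hs2]
      have e : FV s 1 0 = 0 := by
        have h12 : s = 1 ∨ s = 2 := by omega
        rcases h12 with h12 | h12
        · rw [h12]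
          exact QTT.FV_zero_1.1
        · rw [h12]
          exact QTT.FV_zero_1.2
      rw [e, zero_div]
      exact v3_zero A hA (by rw [map_zero]; exact zero_lt_one)
  · intro U hU _
    rw [← QTL.main_identityQ (QTL.adm_sub hadm hU), Finset.sum_mul, Finset.sum_div]
    refine Finset.sum_congr rfl fun T _ => ?_
    ring
  · intro U hU hUn
    have hadm' := QTL.adm_sub hadm hU
    have e : QTL.RQ s 1 a U * em la ^ 7 / p8 ^ 23 = QTL.cs s 1 (pr U) *
        ((∑ α ∈ QTL.UQ U, QTL.WT a U (la ^ 7 * α) * FV s 1 (em α / PI.em (pr U))) / p8 ^ 23) := by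
      rw [QTL.RQ_eq hadm']
      have e5 : ∑ α ∈ QTL.UQ U, QTL.WT a U (la ^ 7 * α) * QTL.FQ s 1 (em α / PI.em (pr U)) =
          ∑ α ∈ QTL.UQ U, QTL.WT a U (la ^ 7 * α) * FV s 1 (em α / PI.em (pr U)) :=
        Finset.sum_congr rfl fun α _ => by rw [QTT.FQ_eq_FV]
      rw [e5]
      field_simp
    rw [e, ← one_mul (QTT.BA _ _ _ _)]
    exact Cg.mul A hA (QTT.t9_cg_zi A hA _) (QTT.src_sum A hA hadm' hUn)
  · intro T hT p hp
    have h1 := QTT.Cg_fac A hA hadm hT hp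
    have e : QTT.e1 s p + sy ii p + ∑ i ∈ T, aw a i p =
        (s : ZMod 2) * sy ii p + ((1 : ℕ) : ZMod 2) * sy la p + ∑ q ∈ T, aw a q p := by
      unfold QTT.e1
      push_cast
      linear_combination QTT.t9_two (sy ii p)
    rw [e]
    exact h1

end

end EQT
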