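import Pool.Agent.EQT.Z1
import Pool.Agent.EQT.L1
import Pool.Agent.EQT.L2
import Pool.Agent.EQT.Sp2
import Pool.Agent.EQT.D7
import Pool.Agent.QTS.Z3

/-!
# [EQT-Z2] BSD modulo 2 for the quartic twists of the classes of stage 1
-/

set_option autoImplicit false

open NumberField IsDedekindDomain ArithmeticFunction
open NAB
open scoped Classical ComplexConjugate

namespace EQT

open PI

/-- [EQT-Z2] BSD modulo 2 for `y² = x³ - D x`, `D` of `Cls` -/
theorem main {s t : ℕ} {S : Finset Gi} {a : Gi → ℕ} (h : Cls s t S a) :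
    EQV.ModTwo (QT.W ((eG (QT.Dd s t S a) : 𝓞 KI) : KI)) := by
  have e2 : padicValRat 2 (2 : ℚ) = 1 := by
    have := padicValRat.self (p := 2) (by norm_num)
    exact_mod_cast this
  have e5 : padicValRat 2 (5 : ℚ) = 0 := by
    have := CM27.padic_two_odd_nat 5 (by decide)
    exact_mod_cast this
  obtain ⟨Φ, hΦ, hs⟩ := QTL.L_entireQ h.1
  obtain ⟨q, hq, hL, hge, hiff⟩ := L_value_iff h.1 (-((if t = 0 then 8 else 4 + t : ℕ) : ℤ))
    (by split_ifs <;> push_cast <;> omega) (QT.Good s t S a) (fun A hA => (w_all A hA h).1)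
    (fun A hA => (w_all A hA h).2) Φ hΦ hs
  have hN : ∀ p (hp : p ∈ S), a p = 2 → QT.LM s t S a ⟨p, hp⟩ ⟨p, hp⟩ = 1 := fun p hp h2 => h.2.2 ⟨p, hp⟩ h2
  have hτ : ∀ p ∈ S, ∀ v : HeightOneSpectrum (𝓞 KI), v.asIdeal = Ideal.span {eG p} →
      SBSD.tam (QT.W ((eG (QT.Dd s t S a) : 𝓞 KI) : KI)) v = (fun _ => 2 : Gi → ℕ) p := fun p hp v hv =>
    tam_odd h.1 v hp (hN p hp) hv
  have hT : ∏ p ∈ S, (fun _ => 2 : Gi → ℕ) p = 2 ^ S.card := by
    rw [Finset.prod_const]
  by_cases hsp : t = 0 ∧ s = 0 ∧ (8 : ℤ) ∣ (QT.Dd s t S a).re - 1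
  · obtain ⟨rfl, rfl, h8⟩ := hsp
    have hc := class_sp h h8
    obtain ⟨Φ', hΦ', hs', hr⟩ := EQT.L_sp h.1 h8 hc
    have h2 : Differentiable ℂ fun z : ℂ =>
        Φ' z * (1 - conj (em (QTS.epw (QT.Dd 0 0 S a))) * (2 : ℂ) ^ (-z)) := by
      refine hΦ'.mul ((differentiable_const _).sub ((differentiable_const _).mul ?_))
      intro z
      exact (differentiableAt_id.neg).const_cpow (Or.inl two_ne_zero)
    have h3 := QTS.z3_eq Φ _ hΦ h2 fun z hz => by
      rw [hs z hz]
      exact hr z hz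
    have h4 : Φ 1 = Φ' 1 * (1 - conj (em (QTS.epw (QT.Dd 0 0 S a))) * 2⁻¹) := by
      rw [congrFun h3 1, Complex.cpow_neg_one]
    have hn := QTS.epw_norm (QT.Dd 0 0 S a)
    obtain ⟨k, hk, hk2⟩ := QTS.epw_factor hn (EQT.epw_trace hc)
    have hk0 : 0 < k := by rcases hk with rfl | rfl <;> norm_num
    have hkv : padicValRat 2 k = -1 := by
      rcases hk with rfl | rfl
      · rw [padicValRat.div (by norm_num) (by norm_num), e2, padicValRat.one]
        norm_num
      · rw [padicValRat.div (by norm_num) (by norm_num), e2, e5]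
        norm_num
    have hkC : (k : ℂ) ≠ 0 := by exact_mod_cast hk0.ne'
    have e0 : (S.card : ℤ) + (-((if (0 : ℕ) = 0 then 8 else 4 + 0 : ℕ) : ℤ) + (0 : ℕ)) / 4 = (S.card : ℤ) - 2 := by
      norm_num
      ring
    rw [e0] at hge hiff
    have hv : q ≠ 0 → padicValRat 2 (q / k) = padicValRat 2 q + 1 := fun h0 => by
      rw [padicValRat.div h0 hk0.ne', hkv]
      ring
    refine modTwo_of h.1 (QTS.epw (QT.Dd 0 0 S a)) ?_ 2 1 two_ne_zero one_ne_zero (fun _ => 2) (fun _ _ => two_ne_zero) hτ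
      (fun v hv1 => EQT.localPoly_sp hc v hv1) (fun v hv1 => by rw [EQT.neron_sp hc v hv1]; norm_num)
      (fun v hv1 => EQT.tam_sp hc v hv1) Φ' hΦ' hs' (q / k) ?_ ((S.card : ℤ) - 1) ?_ (QT.Good 0 0 S a) ?_ ?_ (desc_iff h) (tors_all h)
    · rw [Complex.mul_conj, Complex.normSq_eq_norm_sq] at hn
      have h1 : ((‖em (QTS.epw (QT.Dd 0 0 S a))‖ ^ 2 : ℝ) : ℂ) = ((2 : ℝ) : ℂ) := by
        rw [hn]
        norm_num
      have h2 := Complex.ofReal_injective h1
      exact h2.le
    · rw [h4, map_mul] at hL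
      push_cast
      rw [div_mul_eq_mul_div, eq_div_iff hkC, ← hk2]
      linear_combination hL
    · rw [hT]
      push_cast
      rw [mul_one, ← pow_succ, padicValRat.pow, e2]
      push_cast
      ring
    · intro h0
      have h5 : q ≠ 0 := fun h5 => h0 (by rw [h5, zero_div])
      rw [hv h5]
      have := hge h5
      linarith
    · rw [← hiff]
      constructor
      · rintro ⟨h0, h1⟩
        have h5 : q ≠ 0 := fun h5 => h0 (by rw [h5, zero_div])
        rw [hv h5] at h1
        exact ⟨h5, by linarith⟩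
      · rintro ⟨h0, h1⟩
        exact ⟨div_ne_zero h0 hk0.ne', by rw [hv h0]; linarith⟩
  · have hu : ∀ v : HeightOneSpectrum (𝓞 KI), v.asIdeal = Ideal.span {eG la} →
        ∀ T : WeierstrassCurve.VariableChange (v.adicCompletion KI),
        (T • (QT.W ((eG (QT.Dd s t S a) : 𝓞 KI) : KI)).baseChange (v.adicCompletion KI)).IsMinimal
        (v.adicCompletionIntegers KI) → (IsDiscreteValuationRing.maximalIdeal (v.adicCompletionIntegers KI)).valuation
        (v.adicCompletion KI) (T.u : v.adicCompletion KI) = 1 := fun v hv T hT => EQT.unit_v_la h hsp v hv T hT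
    refine modTwo_of h.1 0 (by simp) 1 (if t = 0 then 1 else 2) one_ne_zero (by split_ifs <;> norm_num)
      (fun _ => 2) (fun _ _ => two_ne_zero) hτ ?_ ?_ ?_ Φ hΦ ?_ q hL
      ((S.card : ℤ) + (-((if t = 0 then 8 else 4 + t : ℕ) : ℤ) + t) / 4) ?_ (QT.Good s t S a) hge hiff (desc_iff h) (tors_all h)
    · intro v hv1
      refine ⟨0, 0, ?_, by simp, by simp⟩
      rw [EQT.localPoly_la_of v hv1 (hu v hv1)]
      simp
    · intro v hv1
      rw [EQT.neron_la_of v (hu v hv1), Nat.cast_one]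
    · intro v hv1
      exact EQT.tam_la h hsp v hv1
    · intro z hz
      rw [hs z hz, QTS.Psw_zero]
    · rw [hT]
      split_ifs with h0
      · subst h0
        push_cast
        rw [mul_one, mul_one, padicValRat.pow, e2]
        norm_num
      · have h5 : (-((4 + t : ℕ) : ℤ) + t) / 4 = -1 := by
          push_cast
          have : (-(4 + (t : ℤ)) + t) = -4 := by ring
          rw [this]
          norm_num
        rw [h5]
        push_cast
        rw [mul_one, ← pow_succ, padicValRat.pow, e2]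
        push_cast
        ring

end EQT
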